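import Mathlib

namespace Pool.Agent.Results.MP_4780e6_al.OneSided

/-- The matrix of ring elements underlying a matrix of units. -/
def toRing {R : Type} [Ring R] {v : ℕ} (M : Matrix (Fin v) (Fin v) Rˣ) :
    Matrix (Fin v) (Fin v) R := Matrix.of fun i j => (M i j : R)

/-- The transpose of the matrix of entrywise inverses. -/
def starInv {R : Type} [Ring R] {v : ℕ} (M : Matrix (Fin v) (Fin v) Rˣ) :
    Matrix (Fin v) (Fin v) R := Matrix.of fun i j => (((M j i)⁻¹ : Rˣ) : R)

/-- The ring `(ℤ/9)[ω]` with `ω ^ 2 + ω + 1 = 0`. -/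
abbrev K : Type := QuadraticAlgebra (ZMod 9) (-1) (-1)

instance : DecidableEq K := fun x y =>
  decidable_of_iff (x.re = y.re ∧ x.im = y.im) QuadraticAlgebra.ext_iff.symm

/-- The unit `ω`. -/
def a : Kˣ := ⟨⟨0, 1⟩, ⟨-1, -1⟩, by decide, by decide⟩

/-- The unit `5 + 2 ω`, another root of `X ^ 2 + X + 1`. -/
def c : Kˣ := ⟨⟨5, 2⟩, ⟨3, 7⟩, by decide, by decide⟩

/-- The matrix. -/
def M : Matrix (Fin 3) (Fin 3) Kˣ := !![1, 1, 1; 1, a, a * a; 1, c, c * c]

lemma h1 : ∀ i j : Fin 3, (toRing M * starInv M) i j = if i = j then (3 : K) else 0 := by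
  decide

lemma h2 : (starInv M * toRing M) 0 1 ≠ 0 := by
  decide

/-- The one-sided orthogonality `M M* = v I` does not imply `M* M = v I`, even when the ring is
finite and commutative, the subgroup `N` of units is finite abelian, and `v = 3`. -/
theorem result : ∃ (R : Type) (_ : CommRing R) (_ : Finite R) (N : Subgroup Rˣ)
    (M : Matrix (Fin 3) (Fin 3) Rˣ), (3 : R) ≠ 0 ∧ (∀ i j, M i j ∈ N) ∧
      toRing M * starInv M = (3 : R) • (1 : Matrix (Fin 3) (Fin 3) R) ∧
      starInv M * toRing M ≠ (3 : R) • (1 : Matrix (Fin 3) (Fin 3) R) := by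
  refine ⟨K, inferInstance, ?_, ⊤, M, by decide, fun _ _ => Subgroup.mem_top _, ?_, ?_⟩
  · exact Finite.of_equiv (ZMod 9 × ZMod 9) (QuadraticAlgebra.equivProd _ _).symm
  · refine Matrix.ext fun i j => ?_
    rw [h1 i j, Matrix.smul_apply, Matrix.one_apply]
    split_ifs <;> simp
  · intro h
    apply h2
    rw [h, Matrix.smul_apply, Matrix.one_apply]
    simp

end Pool.Agent.Results.MP_4780e6_al.OneSided
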